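import Pool.Agent.H4TFF.HalfDefs

/-! # Halves of Hill tetrahedra: the model covers space by congruent halves (helper85) -/

set_option autoImplicit false

open Set
open Pool.Agent.TetRel
open Pool.Agent.TetDim.Hill

namespace Pool.Agent.TFF.HF

/-- Points in a cell both of whose halves are, after `M a b`, congruent to those of the cell `0`. -/
private def G' (a b : ℝ) (x : E3) : Prop :=
  ∃ n, x ∈ C n ∧ ∀ s, ∃ φ : E3 ≃ᵢ E3, M a b '' H s n = φ '' (M a b '' H s 0)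

private theorem G'_map {a b : ℝ} {g g' : E3 → E3} {h : E3 ≃ᵢ E3}
    (hg : ∀ x, h (M a b x) = M a b (g x)) (hgg : ∀ x, g (g' x) = x)
    (hn : ∀ n, ∃ n', ∀ x, (g x ∈ C n' ↔ x ∈ C n) ∧ del n' (g x) = del n x) {x : E3}
    (hx : G' a b x) : G' a b (g x) := by
  obtain ⟨n, hxn, hφ⟩ := hx
  obtain ⟨n', hn'⟩ := hn n
  refine ⟨n', (hn' x).1.2 hxn, fun s => ?_⟩
  obtain ⟨φ, hφ⟩ := hφ s
  refine ⟨φ.trans h, ?_⟩
  have hH : ∀ x, g x ∈ H s n' ↔ x ∈ H s n := by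
    intro x
    change (g x ∈ C n' ∧ _ ∧ _) ↔ (x ∈ C n ∧ _ ∧ _)
    rw [(hn' x).1, (hn' x).2]
  have e : M a b '' H s n' = h '' (M a b '' H s n) := by
    ext y
    constructor
    · rintro ⟨z, hz, rfl⟩
      refine ⟨_, ⟨g' z, (hH _).1 (by rwa [hgg]), rfl⟩, ?_⟩
      rw [hg, hgg]
    · rintro ⟨_, ⟨z, hz, rfl⟩, rfl⟩
      exact ⟨g z, (hH z).2 hz, (hg z).symm⟩
  rw [e, hφ, image_image]
  rfl

private theorem G'_sw01 {a b : ℝ} {x : E3} (hx : G' a b (sw01 x)) : G' a b x := by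
  have h := G'_map (a := a) (b := b) (g := sw01) (g' := sw01) (h := i01) ?_ sw01_sw01 ?_ hx
  · rwa [sw01_sw01] at h
  · intro x
    change sw01 _ = _
    ext i
    fin_cases i <;> simp [sw01, M_apply] <;> exact Or.inl (by ring)
  · intro n
    refine ⟨![n 1, n 0, n 2, -n 3 - 1, n 5, n 4], fun x => ⟨?_, ?_⟩⟩
    · rw [mem_C, mem_C]
      simp [sw01, -and_congr_right_iff, -and_congr_left_iff]
      constructor <;> rintro ⟨⟨_, _⟩, ⟨_, _⟩, ⟨_, _⟩, ⟨_, _⟩, ⟨_, _⟩, ⟨_, _⟩⟩ <;>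
        refine ⟨⟨?_, ?_⟩, ⟨?_, ?_⟩, ⟨?_, ?_⟩, ⟨?_, ?_⟩, ⟨?_, ?_⟩, ⟨?_, ?_⟩⟩ <;> linarith
    · change 1 - max (x 1 - n 1) (max (x 0 - n 0) (x 2 - n 2)) -
        min (x 1 - n 1) (min (x 0 - n 0) (x 2 - n 2)) = _
      rw [max_left_comm, min_left_comm]
      rfl

private theorem G'_sw12 {a b : ℝ} {x : E3} (hx : G' a b (sw12 x)) : G' a b x := by
  have h := G'_map (a := a) (b := b) (g := sw12) (g' := sw12) (h := i12) ?_ sw12_sw12 ?_ hx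
  · rwa [sw12_sw12] at h
  · intro x
    change sw12 _ = _
    ext i
    fin_cases i <;> simp [sw12, M_apply] <;> exact Or.inl (by ring)
  · intro n
    refine ⟨![n 0, n 2, n 1, n 5, -n 4 - 1, n 3], fun x => ⟨?_, ?_⟩⟩
    · rw [mem_C, mem_C]
      simp [sw12, -and_congr_right_iff, -and_congr_left_iff]
      constructor <;> rintro ⟨⟨_, _⟩, ⟨_, _⟩, ⟨_, _⟩, ⟨_, _⟩, ⟨_, _⟩, ⟨_, _⟩⟩ <;>
        refine ⟨⟨?_, ?_⟩, ⟨?_, ?_⟩, ⟨?_, ?_⟩, ⟨?_, ?_⟩, ⟨?_, ?_⟩, ⟨?_, ?_⟩⟩ <;> linarith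
    · change 1 - max (x 0 - n 0) (max (x 2 - n 2) (x 1 - n 1)) -
        min (x 0 - n 0) (min (x 2 - n 2) (x 1 - n 1)) = _
      rw [max_comm (x 2 - n 2 : ℝ), min_comm (x 2 - n 2 : ℝ)]
      rfl

private theorem G'_tr {a b : ℝ} (m : Fin 3 → ℤ) {x : E3} (hx : G' a b (x + tr m)) :
    G' a b x := by
  have h := G'_map (a := a) (b := b) (g := fun x => x + tr (-m)) (g' := fun x => x + tr m)
    (h := IsometryEquiv.addRight (M a b (tr (-m)))) ?_ ?_ ?_ hx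
  · have e : x + tr m + tr (-m) = x := by
      ext i
      fin_cases i <;> simp [tr]
    change G' a b (x + tr m + tr (-m)) at h
    rwa [e] at h
  · intro x
    change M a b x + M a b (tr (-m)) = M a b (x + tr (-m))
    rw [map_add]
  · intro x
    ext i
    fin_cases i <;> simp [tr]
  · intro n
    refine ⟨![n 0 - m 0, n 1 - m 1, n 2 - m 2, n 3 - (m 0 - m 1), n 4 - (m 1 - m 2),
      n 5 - (m 0 - m 2)], fun x => ⟨?_, ?_⟩⟩
    · rw [mem_C, mem_C]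
      simp [tr]
      constructor <;> rintro ⟨⟨_, _⟩, ⟨_, _⟩, ⟨_, _⟩, ⟨_, _⟩, ⟨_, _⟩, ⟨_, _⟩⟩ <;>
        refine ⟨⟨?_, ?_⟩, ⟨?_, ?_⟩, ⟨?_, ?_⟩, ⟨?_, ?_⟩, ⟨?_, ?_⟩, ⟨?_, ?_⟩⟩ <;> linarith
    · have e0 : (x + tr (-m)) 0 - ((n 0 - m 0 : ℤ) : ℝ) = x 0 - n 0 := by
        simp [tr]
        ring
      have e1 : (x + tr (-m)) 1 - ((n 1 - m 1 : ℤ) : ℝ) = x 1 - n 1 := by
        simp [tr]
        ring
      have e2 : (x + tr (-m)) 2 - ((n 2 - m 2 : ℤ) : ℝ) = x 2 - n 2 := by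
        simp [tr]
        ring
      change 1 - max ((x + tr (-m)) 0 - ((n 0 - m 0 : ℤ) : ℝ))
          (max ((x + tr (-m)) 1 - ((n 1 - m 1 : ℤ) : ℝ)) ((x + tr (-m)) 2 - ((n 2 - m 2 : ℤ) : ℝ))) -
        min ((x + tr (-m)) 0 - ((n 0 - m 0 : ℤ) : ℝ))
          (min ((x + tr (-m)) 1 - ((n 1 - m 1 : ℤ) : ℝ)) ((x + tr (-m)) 2 - ((n 2 - m 2 : ℤ) : ℝ)))
        = _
      rw [e0, e1, e2]
      rfl

private theorem G'_sorted {a b : ℝ} {x : E3} (h2 : 0 ≤ x 2) (h12 : x 2 ≤ x 1) (h01 : x 1 ≤ x 0)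
    (h0 : x 0 ≤ 1) : G' a b x := by
  refine ⟨0, ?_, fun s => ⟨IsometryEquiv.refl _, (image_id _).symm⟩⟩
  rw [mem_C]
  simp only [Pi.zero_apply, Int.cast_zero, zero_add]
  refine ⟨⟨?_, ?_⟩, ⟨?_, ?_⟩, ⟨?_, ?_⟩, ⟨?_, ?_⟩, ⟨?_, ?_⟩, ⟨?_, ?_⟩⟩ <;> linarith

private theorem G'_cube {a b : ℝ} {x : E3} (h : ∀ i, 0 ≤ x i ∧ x i ≤ 1) : G' a b x := by
  have key : ∀ y : E3, (∀ i, 0 ≤ y i ∧ y i ≤ 1) → y 2 ≤ y 1 → y 2 ≤ y 0 → G' a b y := by
    intro y hy h1 h0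
    rcases le_total (y 1) (y 0) with h | h
    · exact G'_sorted (hy 2).1 h1 h (hy 0).2
    · apply G'_sw01
      refine G'_sorted ?_ ?_ ?_ ?_ <;> simp [sw01]
      exacts [(hy 2).1, h0, h, (hy 1).2]
  have key2 : ∀ y : E3, (∀ i, 0 ≤ y i ∧ y i ≤ 1) → (y 1 ≤ y 0 ∨ y 2 ≤ y 0) → G' a b y := by
    intro y hy h0
    rcases le_total (y 2) (y 1) with h | h
    · exact key y hy h (by rcases h0 with h0 | h0 <;> linarith)
    · apply G'_sw12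
      refine key _ ?_ ?_ ?_
      · intro i; fin_cases i <;> simp [sw12]
        exacts [hy 0, hy 2, hy 1]
      · simp [sw12]; exact h
      · simp [sw12]; rcases h0 with h0 | h0 <;> linarith
  by_cases hc : x 1 ≤ x 0 ∨ x 2 ≤ x 0
  · exact key2 x h hc
  · push Not at hc
    apply G'_sw01
    refine key2 _ ?_ (Or.inl ?_)
    · intro i; fin_cases i <;> simp [sw01]
      exacts [h 1, h 0, h 2]
    · simp [sw01]; exact hc.1.le

private theorem G'_all (a b : ℝ) (x : E3) : G' a b x := by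
  apply G'_tr (fun i => -⌊x i⌋)
  apply G'_cube
  have key : ∀ t : ℝ, 0 ≤ t + ((-⌊t⌋ : ℤ) : ℝ) ∧ t + ((-⌊t⌋ : ℤ) : ℝ) ≤ 1 := by
    intro t
    have h1 := Int.floor_le t
    have h2 := Int.lt_floor_add_one t
    push_cast
    constructor <;> linarith
  intro i
  fin_cases i
  · have := key (x 0); simpa [tr] using this
  · have := key (x 1); simpa [tr] using this
  · have := key (x 2); simpa [tr] using this

/-- the point reflection in the centre of the cube, followed by the swap of the ends -/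
private def rv (c : ℝ) (x : E3) : E3 := !₂[c - x 2, c - x 1, c - x 0]

private theorem rv_rv (c : ℝ) (x : E3) : rv c (rv c x) = x := by
  ext i
  fin_cases i <;> simp [rv]

private noncomputable def irv (c : ℝ) : E3 ≃ᵢ E3 := IsometryEquiv.mk' (rv c) (rv c) (rv_rv c)
  (by apply isom_of; intro x y; simp [rv]; ring)

private theorem rv_C {x : E3} (hx : x ∈ C 0) : rv 1 x ∈ C 0 := by
  rw [mem_C] at hx ⊢
  simp only [Pi.zero_apply, Int.cast_zero, zero_add] at hx ⊢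
  obtain ⟨⟨_, _⟩, ⟨_, _⟩, ⟨_, _⟩, ⟨_, _⟩, ⟨_, _⟩, ⟨_, _⟩⟩ := hx
  have e0 : (rv 1 x) 0 = 1 - x 2 := rfl
  have e1 : (rv 1 x) 1 = 1 - x 1 := rfl
  have e2 : (rv 1 x) 2 = 1 - x 0 := rfl
  rw [e0, e1, e2]
  refine ⟨⟨?_, ?_⟩, ⟨?_, ?_⟩, ⟨?_, ?_⟩, ⟨?_, ?_⟩, ⟨?_, ?_⟩, ⟨?_, ?_⟩⟩ <;> linarith

private theorem del_sorted {x : E3} (h12 : x 2 ≤ x 1) (h01 : x 1 ≤ x 0) :
    del 0 x = 1 - x 0 - x 2 := by
  unfold del
  simp only [Pi.zero_apply, Int.cast_zero, sub_zero]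
  rw [max_eq_left h12, max_eq_left h01, min_eq_right h12, min_eq_right (h12.trans h01)]

private theorem rv_del {x : E3} (hx : x ∈ C 0) : del 0 (rv 1 x) = -del 0 x := by
  have hx' := rv_C hx
  rw [mem_C] at hx hx'
  simp only [Pi.zero_apply, Int.cast_zero, zero_add] at hx hx'
  rw [del_sorted (by linarith [hx'.2.2.2.2.1.1]) (by linarith [hx'.2.2.2.1.1]),
    del_sorted (by linarith [hx.2.2.2.2.1.1]) (by linarith [hx.2.2.2.1.1])]
  have e0 : (rv 1 x) 0 = 1 - x 2 := rfl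
  have e2 : (rv 1 x) 2 = 1 - x 0 := rfl
  rw [e0, e2]
  ring

private theorem rv_H {x : E3} (s : Bool) (hx : x ∈ H s 0) : rv 1 x ∈ H (!s) 0 := by
  refine ⟨rv_C hx.1, fun h => ?_, fun h => ?_⟩
  · rw [rv_del hx.1]
    have := hx.2.2 (by simpa using h)
    linarith
  · rw [rv_del hx.1]
    have := hx.2.1 (by simpa using h)
    linarith

private theorem rv_M (a b : ℝ) (x : E3) : rv (a + 3 * b) (M a b x) = M a b (rv 1 x) := by
  ext i
  fin_cases i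
  all_goals
    simp [rv, M_apply]
    ring

private theorem half_false (a b : ℝ) :
    M a b '' H false 0 = irv (a + 3 * b) '' (M a b '' H true 0) := by
  ext y
  constructor
  · rintro ⟨z, hz, rfl⟩
    refine ⟨_, ⟨rv 1 z, rv_H false hz, rfl⟩, ?_⟩
    change rv _ _ = _
    rw [rv_M, rv_rv]
  · rintro ⟨_, ⟨z, hz, rfl⟩, rfl⟩
    exact ⟨rv 1 z, rv_H true hz, (rv_M a b z).symm⟩

theorem cover (a b : ℝ) (x : E3) : ∃ n, x ∈ C n ∧
    ∀ s, ∃ φ : E3 ≃ᵢ E3, M a b '' H s n = φ '' (M a b '' H true 0) := by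
  obtain ⟨n, hn, h⟩ := G'_all a b x
  refine ⟨n, hn, fun s => ?_⟩
  obtain ⟨φ, hφ⟩ := h s
  cases s with
  | true => exact ⟨φ, hφ⟩
  | false =>
    refine ⟨(irv (a + 3 * b)).trans φ, ?_⟩
    rw [hφ, half_false, image_image]
    rfl

end Pool.Agent.TFF.HF
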