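import Pool.Agent.TFF.Defs2
import Pool.Agent.TetDim.HillFamily

/-! # Halves of Hill tetrahedra: the model tiling, definitions (helper4) -/

set_option autoImplicit false

open Set
open Pool.Agent.TetRel
open Pool.Agent.TetDim.Hill

namespace Pool.Agent.TFF.HF

/-- `1 - max u - min u` with `u i = x i - n i` for `i = 0, 1, 2` -/
noncomputable def del (n : Fin 6 → ℤ) (x : E3) : ℝ :=
  1 - max (x 0 - n 0) (max (x 1 - n 1) (x 2 - n 2)) -
    min (x 0 - n 0) (min (x 1 - n 1) (x 2 - n 2))

/-- the two halves of a cell -/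
def H (s : Bool) (n : Fin 6 → ℤ) : Set E3 :=
  {x | x ∈ C n ∧ (s = true → 0 ≤ del n x) ∧ (s = false → del n x ≤ 0)}

/-- the vertices of the half `H true 0`: the middle of `q 0`, `q 3`, then `q 1`, `q 2`, `q 0` -/
noncomputable def hq : Fin 4 → E3 := ![(1 / 2 : ℝ) • q 3, q 1, q 2, q 0]

/-- the vertices of the model half -/
noncomputable def hvert (a b : ℝ) (i : Fin 4) : E3 := M a b (hq i)

end Pool.Agent.TFF.HF
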