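import Pool.Agent.H4TFF.HalfDefs

/-! # Halves of Hill tetrahedra: disjoint interiors (helper4) -/

set_option autoImplicit false

open Set Filter Topology
open Pool.Agent.TetRel
open Pool.Agent.TetDim.Hill

namespace Pool.Agent.TFF.HF

theorem H_sub (s : Bool) (n : Fin 6 → ℤ) : H s n ⊆ C n := fun _ hx => hx.1

theorem del_dir (n : Fin 6 → ℤ) (x : E3) (t : ℝ) :
    del n (x + t • !₂[(1 : ℝ), 1, 1]) = del n x - 2 * t := by
  have e0 : (x + t • !₂[(1 : ℝ), 1, 1]) 0 - (n 0 : ℝ) = (x 0 - n 0) + t := by simp; ring
  have e1 : (x + t • !₂[(1 : ℝ), 1, 1]) 1 - (n 1 : ℝ) = (x 1 - n 1) + t := by simp; ring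
  have e2 : (x + t • !₂[(1 : ℝ), 1, 1]) 2 - (n 2 : ℝ) = (x 2 - n 2) + t := by simp; ring
  unfold del
  rw [e0, e1, e2, max_add_add_right, max_add_add_right, min_add_add_right, min_add_add_right]
  ring

theorem disjH {s t : Bool} {n m : Fin 6 → ℤ} (h : H s n ≠ H t m) :
    Disjoint (interior (H s n)) (interior (H t m)) := by
  by_cases hC : C n = C m
  · by_cases hnm : n = m
    · subst hnm
      have hst : s ≠ t := fun e => h (by rw [e])
      have key : Disjoint (interior (H true n)) (interior (H false n)) := by
        rw [Set.disjoint_left]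
        intro x hx hx'
        have hc : Tendsto (fun r : ℝ => x + r • !₂[(1 : ℝ), 1, 1]) (𝓝 0) (𝓝 x) := by
          have : Continuous (fun r : ℝ => x + r • !₂[(1 : ℝ), 1, 1]) := by fun_prop
          have h0 := this.tendsto 0
          rwa [zero_smul, add_zero] at h0
        have h1 : ∀ᶠ r : ℝ in 𝓝 0, x + r • !₂[(1 : ℝ), 1, 1] ∈ H true n :=
          hc (mem_interior_iff_mem_nhds.1 hx)
        have h2 : ∀ᶠ r : ℝ in 𝓝[>] 0, x + r • !₂[(1 : ℝ), 1, 1] ∈ H true n :=
          h1.filter_mono nhdsWithin_le_nhds
        obtain ⟨r, hr, hr0⟩ := (h2.and self_mem_nhdsWithin).exists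
        have h3 := hr.2.1 rfl
        rw [del_dir] at h3
        have h4 := (interior_subset hx').2.2 rfl
        have : 0 < r := hr0
        linarith
      cases s <;> cases t
      · exact absurd rfl hst
      · exact key.symm
      · exact key
      · exact absurd rfl hst
    · obtain ⟨k, hk⟩ := Function.ne_iff.1 hnm
      have key : ∀ (a b : Fin 6 → ℤ), a k < b k → Disjoint (interior (C a)) (interior (C b)) := by
        intro a b hab
        rw [Set.disjoint_left]
        intro x hx hx'
        have h1 := lt_of_interior hx k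
        have h2 := (interior_subset hx' k).1
        have h3 : ((a k : ℤ) : ℝ) + 1 ≤ b k := by exact_mod_cast hab
        linarith
      have hd : Disjoint (interior (C n)) (interior (C m)) := by
        rcases lt_or_gt_of_ne hk with h' | h'
        · exact key n m h'
        · exact (key m n h').symm
      exact hd.mono (interior_mono (H_sub s n)) (interior_mono (H_sub t m))
  · exact (disj hC).mono (interior_mono (H_sub s n)) (interior_mono (H_sub t m))

end Pool.Agent.TFF.HF
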