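import Pool.Agent.H4TFF.HalfDefs

/-! # Halves of Hill tetrahedra: the model tiling is face-to-face (helper85) -/

set_option autoImplicit false

open Set
open Pool.Agent.TetRel
open Pool.Agent.TetDim.Hill

namespace Pool.Agent.TFF.HF

/-- `1 - max - min` -/
private noncomputable def d3 (u v w : ℝ) : ℝ := 1 - max u (max v w) - min u (min v w)

private lemma d012 {u v w : ℝ} (h1 : v ≤ u) (h2 : w ≤ v) : d3 u v w = 1 - u - w := by
  unfold d3
  rw [max_eq_left h2, max_eq_left h1, min_eq_right h2, min_eq_right (h2.trans h1)]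

private lemma d021 {u v w : ℝ} (h1 : w ≤ u) (h2 : v ≤ w) : d3 u v w = 1 - u - v := by
  unfold d3
  rw [max_eq_right h2, max_eq_left h1, min_eq_left h2, min_eq_right (h2.trans h1)]

private lemma d201 {u v w : ℝ} (h1 : u ≤ w) (h2 : v ≤ u) : d3 u v w = 1 - w - v := by
  unfold d3
  rw [max_eq_right (h2.trans h1), max_eq_right h1, min_eq_left (h2.trans h1), min_eq_right h2]

private lemma d102 {u v w : ℝ} (h1 : u ≤ v) (h2 : w ≤ u) : d3 u v w = 1 - v - w := by
  unfold d3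
  rw [max_eq_left (h2.trans h1), max_eq_right h1, min_eq_right (h2.trans h1), min_eq_right h2]

private lemma d120 {u v w : ℝ} (h1 : w ≤ v) (h2 : u ≤ w) : d3 u v w = 1 - v - u := by
  unfold d3
  rw [max_eq_left h1, max_eq_right (h2.trans h1), min_eq_right h1, min_eq_left h2]

private lemma d210 {u v w : ℝ} (h1 : v ≤ w) (h2 : u ≤ v) : d3 u v w = 1 - w - u := by
  unfold d3
  rw [max_eq_right h1, max_eq_right (h2.trans h1), min_eq_left h1, min_eq_left h2]

private lemma comb_le {a b a' b' α β : ℝ} (hα : 0 ≤ α) (hβ : 0 ≤ β) (h : a ≤ b ∧ a' ≤ b') :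
    α * a + β * a' ≤ α * b + β * b' :=
  add_le_add (mul_le_mul_of_nonneg_left h.1 hα) (mul_le_mul_of_nonneg_left h.2 hβ)

private lemma d3_affine {u v w u' v' w' α β : ℝ} (hα : 0 ≤ α) (hβ : 0 ≤ β) (hab : α + β = 1)
    (h1 : (v ≤ u ∧ v' ≤ u') ∨ (u ≤ v ∧ u' ≤ v')) (h2 : (w ≤ v ∧ w' ≤ v') ∨ (v ≤ w ∧ v' ≤ w'))
    (h3 : (w ≤ u ∧ w' ≤ u') ∨ (u ≤ w ∧ u' ≤ w')) :
    d3 (α * u + β * u') (α * v + β * v') (α * w + β * w') = α * d3 u v w + β * d3 u' v' w' := by
  rcases h1 with h1 | h1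
  · rcases h2 with h2 | h2
    · rw [d012 (comb_le hα hβ h1) (comb_le hα hβ h2), d012 h1.1 h2.1, d012 h1.2 h2.2]
      linear_combination (-1) * hab
    · rcases h3 with h3 | h3
      · rw [d021 (comb_le hα hβ h3) (comb_le hα hβ h2), d021 h3.1 h2.1, d021 h3.2 h2.2]
        linear_combination (-1) * hab
      · rw [d201 (comb_le hα hβ h3) (comb_le hα hβ h1), d201 h3.1 h1.1, d201 h3.2 h1.2]
        linear_combination (-1) * hab
  · rcases h2 with h2 | h2
    · rcases h3 with h3 | h3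
      · rw [d102 (comb_le hα hβ h1) (comb_le hα hβ h3), d102 h1.1 h3.1, d102 h1.2 h3.2]
        linear_combination (-1) * hab
      · rw [d120 (comb_le hα hβ h2) (comb_le hα hβ h3), d120 h2.1 h3.1, d120 h2.2 h3.2]
        linear_combination (-1) * hab
    · rw [d210 (comb_le hα hβ h2) (comb_le hα hβ h1), d210 h2.1 h1.1, d210 h2.2 h1.2]
      linear_combination (-1) * hab

private lemma del_eq (n : Fin 6 → ℤ) (x : E3) :
    del n x = d3 (x 0 - n 0) (x 1 - n 1) (x 2 - n 2) := rfl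

private lemma d3_zero {u v w : ℝ} (hu : 0 ≤ u ∧ u ≤ 1) (hv : 0 ≤ v ∧ v ≤ 1) (hw : 0 ≤ w ∧ w ≤ 1)
    (h1 : u = 1 ∨ v = 1 ∨ w = 1) (h0 : u = 0 ∨ v = 0 ∨ w = 0) : d3 u v w = 0 := by
  have hmax : max u (max v w) = 1 := by
    refine le_antisymm (max_le hu.2 (max_le hv.2 hw.2)) ?_
    rcases h1 with h | h | h
    · rw [h]; exact le_max_left _ _
    · rw [h]; exact (le_max_left _ _).trans (le_max_right _ _)
    · rw [h]; exact (le_max_right _ _).trans (le_max_right _ _)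
  have hmin : min u (min v w) = 0 := by
    refine le_antisymm ?_ (le_min hu.1 (le_min hv.1 hw.1))
    rcases h0 with h | h | h
    · rw [h]; exact min_le_left _ _
    · rw [h]; exact (min_le_right _ _).trans (min_le_left _ _)
    · rw [h]; exact (min_le_right _ _).trans (min_le_right _ _)
  unfold d3
  rw [hmax, hmin]
  norm_num

private lemma cube {n : Fin 6 → ℤ} {x : E3} (hx : x ∈ C n) :
    (0 ≤ x 0 - n 0 ∧ x 0 - n 0 ≤ 1) ∧ (0 ≤ x 1 - n 1 ∧ x 1 - n 1 ≤ 1) ∧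
      (0 ≤ x 2 - n 2 ∧ x 2 - n 2 ≤ 1) := by
  rw [mem_C] at hx
  obtain ⟨⟨_, _⟩, ⟨_, _⟩, ⟨_, _⟩, -, -, -⟩ := hx
  refine ⟨⟨?_, ?_⟩, ⟨?_, ?_⟩, ⟨?_, ?_⟩⟩ <;> linarith

/-- the two coordinates of a degenerate cell are at opposite ends -/
private lemma deg_aux {p q r : ℤ} {a b : ℝ} (h : ¬ (r = p - q ∨ r = p - q - 1))
    (ha : 0 ≤ a - p ∧ a - p ≤ 1) (hb : 0 ≤ b - q ∧ b - q ≤ 1)
    (hr : (r : ℝ) ≤ a - b ∧ a - b ≤ r + 1) :
    (a - p = 1 ∧ b - q = 0) ∨ (a - p = 0 ∧ b - q = 1) := by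
  have h1 : p - q + 1 ≤ r ∨ r ≤ p - q - 2 := by omega
  obtain ⟨ha1, ha2⟩ := ha
  obtain ⟨hb1, hb2⟩ := hb
  obtain ⟨hr1, hr2⟩ := hr
  rcases h1 with h1 | h1
  · have h2 : (p : ℝ) - q + 1 ≤ r := by exact_mod_cast h1
    left
    constructor <;> linarith
  · have h2 : (r : ℝ) ≤ p - q - 2 := by exact_mod_cast h1
    right
    constructor <;> linarith

private lemma deg3 {n : Fin 6 → ℤ} (h : ¬ (n 3 = n 0 - n 1 ∨ n 3 = n 0 - n 1 - 1)) {x : E3}
    (hx : x ∈ C n) : del n x = 0 := by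
  obtain ⟨h0, h1, h2⟩ := cube hx
  rw [mem_C] at hx
  rw [del_eq]
  rcases deg_aux h h0 h1 hx.2.2.2.1 with ⟨e, f⟩ | ⟨e, f⟩
  · exact d3_zero h0 h1 h2 (Or.inl e) (Or.inr (Or.inl f))
  · exact d3_zero h0 h1 h2 (Or.inr (Or.inl f)) (Or.inl e)

private lemma deg4 {n : Fin 6 → ℤ} (h : ¬ (n 4 = n 1 - n 2 ∨ n 4 = n 1 - n 2 - 1)) {x : E3}
    (hx : x ∈ C n) : del n x = 0 := by
  obtain ⟨h0, h1, h2⟩ := cube hx
  rw [mem_C] at hx
  rw [del_eq]
  rcases deg_aux h h1 h2 hx.2.2.2.2.1 with ⟨e, f⟩ | ⟨e, f⟩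
  · exact d3_zero h0 h1 h2 (Or.inr (Or.inl e)) (Or.inr (Or.inr f))
  · exact d3_zero h0 h1 h2 (Or.inr (Or.inr f)) (Or.inr (Or.inl e))

private lemma deg5 {n : Fin 6 → ℤ} (h : ¬ (n 5 = n 0 - n 2 ∨ n 5 = n 0 - n 2 - 1)) {x : E3}
    (hx : x ∈ C n) : del n x = 0 := by
  obtain ⟨h0, h1, h2⟩ := cube hx
  rw [mem_C] at hx
  rw [del_eq]
  rcases deg_aux h h0 h2 hx.2.2.2.2.2 with ⟨e, f⟩ | ⟨e, f⟩
  · exact d3_zero h0 h1 h2 (Or.inl e) (Or.inr (Or.inr f))
  · exact d3_zero h0 h1 h2 (Or.inr (Or.inr f)) (Or.inl e)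

/-- two coordinates are in the same order at two points of a cell -/
private lemma ord_aux {p q r : ℤ} {a b a' b' : ℝ} (h : r = p - q ∨ r = p - q - 1)
    (hr : (r : ℝ) ≤ a - b ∧ a - b ≤ r + 1) (hr' : (r : ℝ) ≤ a' - b' ∧ a' - b' ≤ r + 1) :
    (b - q ≤ a - p ∧ b' - q ≤ a' - p) ∨ (a - p ≤ b - q ∧ a' - p ≤ b' - q) := by
  obtain ⟨h1, h2⟩ := hr
  obtain ⟨h3, h4⟩ := hr'
  rcases h with h | h
  · have h5 : (r : ℝ) = p - q := by exact_mod_cast h
    left
    constructor <;> linarith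
  · have h5 : (r : ℝ) = p - q - 1 := by exact_mod_cast h
    right
    constructor <;> linarith

/-- on every cell `del` is affine -/
theorem del_affine {n : Fin 6 → ℤ} {x y : E3} (hx : x ∈ C n) (hy : y ∈ C n) {α β : ℝ}
    (hα : 0 ≤ α) (hβ : 0 ≤ β) (hab : α + β = 1) :
    del n (α • x + β • y) = α * del n x + β * del n y := by
  have hz : α • x + β • y ∈ C n := C_convex n hx hy hα hβ hab
  by_cases h3 : n 3 = n 0 - n 1 ∨ n 3 = n 0 - n 1 - 1
  · by_cases h4 : n 4 = n 1 - n 2 ∨ n 4 = n 1 - n 2 - 1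
    · by_cases h5 : n 5 = n 0 - n 2 ∨ n 5 = n 0 - n 2 - 1
      · have hx' := (mem_C n x).1 hx
        have hy' := (mem_C n y).1 hy
        have h := d3_affine hα hβ hab (ord_aux h3 hx'.2.2.2.1 hy'.2.2.2.1)
          (ord_aux h4 hx'.2.2.2.2.1 hy'.2.2.2.2.1) (ord_aux h5 hx'.2.2.2.2.2 hy'.2.2.2.2.2)
        rw [del_eq, del_eq, del_eq, ← h]
        have e : ∀ i : Fin 3, (α • x + β • y) i = α * x i + β * y i := fun i => by simp
        have f : ∀ c : ℝ, α * c + β * c = c := fun c => by rw [← add_mul, hab, one_mul]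
        congr 1
        · rw [e 0]
          linear_combination f (n 0 : ℝ)
        · rw [e 1]
          linear_combination f (n 1 : ℝ)
        · rw [e 2]
          linear_combination f (n 2 : ℝ)
      · rw [deg5 h5 hx, deg5 h5 hy, deg5 h5 hz]
        ring
    · rw [deg4 h4 hx, deg4 h4 hy, deg4 h4 hz]
      ring
  · rw [deg3 h3 hx, deg3 h3 hy, deg3 h3 hz]
    ring

/-- the values of the forms of the cells on a segment whose inner point is in another cell -/
private lemma F_eq {n m : Fin 6 → ℤ} {x y : E3} {α β : ℝ} (hα : 0 < α) (hβ : 0 < β)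
    (hab : α + β = 1) (hx : x ∈ C n) (hy : y ∈ C n) (hz : α • x + β • y ∈ C m) (k : Fin 6) :
    (n k < m k → F k x = m k ∧ F k y = m k) ∧ (m k < n k → F k x = m k + 1 ∧ F k y = m k + 1) := by
  have h1 := hx k
  have h2 := hy k
  have h3 := hz k
  rw [F_add, F_smul, F_smul] at h3
  constructor
  · intro h
    have h4 : (n k : ℝ) + 1 ≤ m k := by exact_mod_cast h
    have h5 : α * (m k - F k x) + β * (m k - F k y) ≤ 0 := by
      have : α * (m k : ℝ) + β * m k = m k := by rw [← add_mul, hab, one_mul]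
      linarith [h3.1]
    have h6 : 0 ≤ (m k : ℝ) - F k x := by linarith [h1.2]
    have h7 : 0 ≤ (m k : ℝ) - F k y := by linarith [h2.2]
    have h8 : 0 ≤ α * (m k - F k x) := mul_nonneg hα.le h6
    have h9 : 0 ≤ β * (m k - F k y) := mul_nonneg hβ.le h7
    have h10 : α * (m k - F k x) = 0 := by linarith
    have h11 : β * (m k - F k y) = 0 := by linarith
    have h12 := (mul_eq_zero.1 h10).resolve_left hα.ne'
    have h13 := (mul_eq_zero.1 h11).resolve_left hβ.ne'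
    exact ⟨by linarith, by linarith⟩
  · intro h
    have h4 : (m k : ℝ) + 1 ≤ n k := by exact_mod_cast h
    have h5 : α * (F k x - (m k + 1)) + β * (F k y - (m k + 1)) ≤ 0 := by
      have : α * ((m k : ℝ) + 1) + β * (m k + 1) = m k + 1 := by rw [← add_mul, hab, one_mul]
      linarith [h3.2]
    have h6 : 0 ≤ F k x - ((m k : ℝ) + 1) := by linarith [h1.1]
    have h7 : 0 ≤ F k y - ((m k : ℝ) + 1) := by linarith [h2.1]
    have h8 : 0 ≤ α * (F k x - (m k + 1)) := mul_nonneg hα.le h6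
    have h9 : 0 ≤ β * (F k y - (m k + 1)) := mul_nonneg hβ.le h7
    have h10 : α * (F k x - (m k + 1)) = 0 := by linarith
    have h11 : β * (F k y - (m k + 1)) = 0 := by linarith
    have h12 := (mul_eq_zero.1 h10).resolve_left hα.ne'
    have h13 := (mul_eq_zero.1 h11).resolve_left hβ.ne'
    exact ⟨by linarith, by linarith⟩

private lemma mem_of {n m : Fin 6 → ℤ} {x y : E3} {α β : ℝ} (hα : 0 < α) (hβ : 0 < β)
    (hab : α + β = 1) (hx : x ∈ C n) (hy : y ∈ C n) (hz : α • x + β • y ∈ C m) :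
    x ∈ C m ∧ y ∈ C m := by
  constructor
  · intro k
    have h := F_eq hα hβ hab hx hy hz k
    rcases lt_trichotomy (n k) (m k) with h1 | h1 | h1
    · rw [(h.1 h1).1]
      exact ⟨le_rfl, by linarith⟩
    · rw [← h1]
      exact hx k
    · rw [(h.2 h1).1]
      exact ⟨by linarith, le_rfl⟩
  · intro k
    have h := F_eq hα hβ hab hx hy hz k
    rcases lt_trichotomy (n k) (m k) with h1 | h1 | h1
    · rw [(h.1 h1).2]
      exact ⟨le_rfl, by linarith⟩
    · rw [← h1]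
      exact hy k
    · rw [(h.2 h1).2]
      exact ⟨by linarith, le_rfl⟩

/-- a coordinate at its lower end makes `del` nonnegative -/
private lemma del_nonneg {m : Fin 6 → ℤ} {x : E3} (hx : x ∈ C m)
    (h : x 0 - m 0 = 0 ∨ x 1 - m 1 = 0 ∨ x 2 - m 2 = 0) : 0 ≤ del m x := by
  obtain ⟨h0, h1, h2⟩ := cube hx
  rw [del_eq]
  have hmax : max (x 0 - m 0) (max (x 1 - m 1) (x 2 - m 2)) ≤ 1 :=
    max_le h0.2 (max_le h1.2 h2.2)
  have hmin : min (x 0 - m 0) (min (x 1 - m 1) (x 2 - m 2)) ≤ 0 := by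
    rcases h with h | h | h
    · exact (min_le_left _ _).trans h.le
    · exact ((min_le_right _ _).trans (min_le_left _ _)).trans h.le
    · exact ((min_le_right _ _).trans (min_le_right _ _)).trans h.le
  unfold d3
  linarith

/-- a coordinate at its upper end makes `del` nonpositive -/
private lemma del_nonpos {m : Fin 6 → ℤ} {x : E3} (hx : x ∈ C m)
    (h : x 0 - m 0 = 1 ∨ x 1 - m 1 = 1 ∨ x 2 - m 2 = 1) : del m x ≤ 0 := by
  obtain ⟨h0, h1, h2⟩ := cube hx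
  rw [del_eq]
  have hmin : 0 ≤ min (x 0 - m 0) (min (x 1 - m 1) (x 2 - m 2)) :=
    le_min h0.1 (le_min h1.1 h2.1)
  have hmax : 1 ≤ max (x 0 - m 0) (max (x 1 - m 1) (x 2 - m 2)) := by
    rcases h with h | h | h
    · exact h.ge.trans (le_max_left _ _)
    · exact h.ge.trans ((le_max_left _ _).trans (le_max_right _ _))
    · exact h.ge.trans ((le_max_right _ _).trans (le_max_right _ _))
  unfold d3
  linarith

/-- either the values at both ends of the segment are nonnegative, or both are nonpositive -/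
private lemma sign_case {s : Bool} {n m : Fin 6 → ℤ} {x y : E3} {α β : ℝ} (hα : 0 < α)
    (hβ : 0 < β) (hab : α + β = 1) (hx : x ∈ H s n) (hy : y ∈ H s n)
    (hz : α • x + β • y ∈ C m) :
    (0 ≤ del m x ∧ 0 ≤ del m y) ∨ (del m x ≤ 0 ∧ del m y ≤ 0) := by
  obtain ⟨hxm, hym⟩ := mem_of hα hβ hab hx.1 hy.1 hz
  have hF := F_eq hα hβ hab hx.1 hy.1 hz
  have c0 : ∀ w : E3, F 0 w = w 0 := fun w => rfl
  have c1 : ∀ w : E3, F 1 w = w 1 := fun w => rfl
  have c2 : ∀ w : E3, F 2 w = w 2 := fun w => rfl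
  rcases lt_trichotomy (n 0) (m 0) with e0 | e0 | e0
  · obtain ⟨a1, a2⟩ := (hF 0).1 e0
    rw [c0] at a1 a2
    exact Or.inl ⟨del_nonneg hxm (Or.inl (by linarith)), del_nonneg hym (Or.inl (by linarith))⟩
  · rcases lt_trichotomy (n 1) (m 1) with e1 | e1 | e1
    · obtain ⟨a1, a2⟩ := (hF 1).1 e1
      rw [c1] at a1 a2
      exact Or.inl ⟨del_nonneg hxm (Or.inr (Or.inl (by linarith))),
        del_nonneg hym (Or.inr (Or.inl (by linarith)))⟩
    · rcases lt_trichotomy (n 2) (m 2) with e2 | e2 | e2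
      · obtain ⟨a1, a2⟩ := (hF 2).1 e2
        rw [c2] at a1 a2
        exact Or.inl ⟨del_nonneg hxm (Or.inr (Or.inr (by linarith))),
          del_nonneg hym (Or.inr (Or.inr (by linarith)))⟩
      · have hd : ∀ w, del m w = del n w := fun w => by
          rw [del_eq, del_eq, e0, e1, e2]
        rw [hd, hd]
        cases s with
        | true => exact Or.inl ⟨hx.2.1 rfl, hy.2.1 rfl⟩
        | false => exact Or.inr ⟨hx.2.2 rfl, hy.2.2 rfl⟩
      · obtain ⟨a1, a2⟩ := (hF 2).2 e2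
        rw [c2] at a1 a2
        exact Or.inr ⟨del_nonpos hxm (Or.inr (Or.inr (by linarith))),
          del_nonpos hym (Or.inr (Or.inr (by linarith)))⟩
    · obtain ⟨a1, a2⟩ := (hF 1).2 e1
      rw [c1] at a1 a2
      exact Or.inr ⟨del_nonpos hxm (Or.inr (Or.inl (by linarith))),
        del_nonpos hym (Or.inr (Or.inl (by linarith)))⟩
  · obtain ⟨a1, a2⟩ := (hF 0).2 e0
    rw [c0] at a1 a2
    exact Or.inr ⟨del_nonpos hxm (Or.inl (by linarith)), del_nonpos hym (Or.inl (by linarith))⟩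

theorem ff (s t : Bool) (n m : Fin 6 → ℤ) : IsExtreme ℝ (H s n) (H s n ∩ H t m) := by
  refine ⟨inter_subset_left, ?_⟩
  rintro x hx y hy z ⟨-, hz⟩ ⟨α, β, hα, hβ, hab, rfl⟩
  refine ⟨hx, ?_⟩
  obtain ⟨hxm, hym⟩ := mem_of hα hβ hab hx.1 hy.1 hz.1
  have haff := del_affine hxm hym hα.le hβ.le hab
  have hs := sign_case hα hβ hab hx hy hz.1
  refine ⟨hxm, fun ht => ?_, fun ht => ?_⟩
  · have h1 := hz.2.1 ht
    rw [haff] at h1
    rcases hs with hs | hs
    · exact hs.1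
    · have h2 : β * del m y ≤ 0 := mul_nonpos_of_nonneg_of_nonpos hβ.le hs.2
      have h3 : 0 ≤ α * del m x := by linarith
      exact nonneg_of_mul_nonneg_right h3 hα
  · have h1 := hz.2.2 ht
    rw [haff] at h1
    rcases hs with hs | hs
    · have h2 : 0 ≤ β * del m y := mul_nonneg hβ.le hs.2
      have h3 : α * del m x ≤ 0 := by linarith
      exact nonpos_of_mul_nonpos_right h3 hα
    · exact hs.1

end Pool.Agent.TFF.HF
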