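import Pool.Agent.H4TFF.HalfDefs

/-! # The half of the standard cell is the hull of its four vertices (helper34) -/

set_option autoImplicit false

open Set
open Pool.Agent.TetRel
open Pool.Agent.TetDim.Hill

namespace Pool.Agent.TFF.HF

theorem del_zero {x : E3} (hx : x ∈ C 0) : del 0 x = 1 - x 0 - x 2 := by
  rw [mem_C] at hx
  simp only [Pi.zero_apply, Int.cast_zero, zero_add] at hx
  obtain ⟨-, -, -, ⟨h3, -⟩, ⟨h4, -⟩, ⟨h5, -⟩⟩ := hx
  unfold del
  simp only [Pi.zero_apply, Int.cast_zero, sub_zero]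
  rw [max_eq_left (show x 2 ≤ x 1 by linarith), max_eq_left (show x 1 ≤ x 0 by linarith),
    min_eq_right (show x 2 ≤ x 1 by linarith), min_eq_right (show x 2 ≤ x 0 by linarith)]

theorem mem_half {x : E3} : x ∈ H true 0 ↔ x ∈ C 0 ∧ x 0 + x 2 ≤ 1 := by
  constructor
  · rintro ⟨h1, h2, -⟩
    have h3 := h2 rfl
    rw [del_zero h1] at h3
    exact ⟨h1, by linarith⟩
  · rintro ⟨h1, h2⟩
    refine ⟨h1, fun _ => ?_, fun h => absurd h (by decide)⟩
    rw [del_zero h1]
    linarith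

theorem half_convex : Convex ℝ (H true 0) := by
  intro x hx y hy a b ha hb hab
  rw [mem_half] at hx hy ⊢
  refine ⟨C_convex 0 hx.1 hy.1 ha hb hab, ?_⟩
  have h1 : (a • x + b • y) 0 + (a • x + b • y) 2 = a * (x 0 + x 2) + b * (y 0 + y 2) := by
    simp
    ring
  rw [h1]
  have h2 := mul_le_mul_of_nonneg_left hx.2 ha
  have h3 := mul_le_mul_of_nonneg_left hy.2 hb
  linarith

theorem hull_hq : convexHull ℝ (range hq) = H true 0 := by
  apply Subset.antisymm
  · apply convexHull_min _ half_convex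
    rintro _ ⟨i, rfl⟩
    rw [mem_half, mem_C]
    fin_cases i <;>
      refine ⟨⟨⟨?_, ?_⟩, ⟨?_, ?_⟩, ⟨?_, ?_⟩, ⟨?_, ?_⟩, ⟨?_, ?_⟩, ⟨?_, ?_⟩⟩, ?_⟩ <;>
      simp [hq, q] <;> norm_num
  · intro x hx
    rw [mem_half, mem_C] at hx
    simp only [Pi.zero_apply, Int.cast_zero, zero_add] at hx
    obtain ⟨⟨-, -, ⟨h2, -⟩, ⟨h3, -⟩, ⟨h4, -⟩, -⟩, h6⟩ := hx
    let w : Fin 4 → ℝ := ![2 * x 2, x 0 - x 1, x 1 - x 2, 1 - x 0 - x 2]
    have hw : ∀ i ∈ Finset.univ, 0 ≤ w i := by
      intro i _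
      fin_cases i
      · exact mul_nonneg (by norm_num) h2
      · exact h3
      · exact h4
      · show 0 ≤ 1 - x 0 - x 2
        linarith
    have hw1 : ∑ i, w i = 1 := by
      rw [Fin.sum_univ_four]
      change 2 * x 2 + (x 0 - x 1) + (x 1 - x 2) + (1 - x 0 - x 2) = 1
      ring
    have hm := (convex_convexHull ℝ (range hq)).sum_mem hw hw1
      (fun i _ => subset_convexHull ℝ _ (mem_range_self i))
    have e : ∑ i, w i • hq i = x := by
      rw [Fin.sum_univ_four]
      ext j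
      fin_cases j
      all_goals simp [w, q, hq]
      all_goals ring
    rwa [e] at hm

theorem hull_half (a b : ℝ) : convexHull ℝ (range (hvert a b)) = M a b '' H true 0 := by
  have e : range (hvert a b) = M a b '' range hq := by
    rw [← range_comp]
    rfl
  rw [e, ← hull_hq]
  exact ((M a b).image_convexHull (range hq)).symm

end Pool.Agent.TFF.HF
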