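import Pool.Agent.H4TFF.HalfPath
import Pool.Agent.H4TFF.HalfFace
import Pool.Agent.H4TFF.HalfHull
import Pool.Agent.H4TFF.HalfDisj
import Pool.Agent.H4TFF.HalfCover

/-! # Halves of Hill tetrahedra tile periodically and face-to-face: assembly (helper4) -/

set_option autoImplicit false

open Set
open Pool.Agent.TetRel
open Pool.Agent.TetDim.Hill

namespace Pool.Agent.TFF.HF

theorem ext_M {a b : ℝ} (ha : a ≠ 0) (hb : a + 3 * b ≠ 0) {X Y : Set E3}
    (h : IsExtreme ℝ X (X ∩ Y)) : IsExtreme ℝ (M a b '' X) (M a b '' X ∩ M a b '' Y) := by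
  have inj : Function.Injective (M a b) := (ME a b ha hb).injective
  rw [← image_inter inj]
  refine ⟨image_mono inter_subset_left, ?_⟩
  rintro _ ⟨x1, hx1, rfl⟩ _ ⟨x2, hx2, rfl⟩ _ ⟨x, hx, rfl⟩ hs
  refine ⟨x1, h.2 hx1 hx2 hx ?_, rfl⟩
  obtain ⟨s, t, hs0, ht0, hst, he⟩ := hs
  refine ⟨s, t, hs0, ht0, hst, ?_⟩
  apply inj
  rw [← he, map_add, map_smul, map_smul]

theorem hvert_per {a b : ℝ} (ha : a ≠ 0) (hb : a + 3 * b ≠ 0) : FFPer (hvert a b) := by
  refine ⟨{A | (∃ s n, A = M a b '' H s n) ∧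
    ∃ φ : E3 ≃ᵢ E3, A = φ '' convexHull ℝ (range (hvert a b))}, ?_, ?_, ?_, ?_, ?_⟩
  · rintro A ⟨-, hA⟩
    exact hA
  · rw [sUnion_eq_univ_iff]
    intro y
    obtain ⟨x, rfl⟩ := (ME a b ha hb).surjective y
    obtain ⟨n, hn, h⟩ := cover a b x
    have key : ∃ s, x ∈ H s n := by
      rcases le_total 0 (del n x) with h1 | h1
      · exact ⟨true, hn, fun _ => h1, fun h => absurd h (by decide)⟩
      · exact ⟨false, hn, fun h => absurd h (by decide), fun _ => h1⟩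
    obtain ⟨s, hs⟩ := key
    obtain ⟨φ, hφ⟩ := h s
    exact ⟨M a b '' H s n, ⟨⟨s, n, rfl⟩, φ, by rw [hull_half, hφ]⟩, x, hs, rfl⟩
  · rintro _ ⟨⟨s, n, rfl⟩, -⟩ _ ⟨⟨t, m, rfl⟩, -⟩ hne
    have e : ∀ X : Set E3, interior (M a b '' X) = M a b '' interior X := fun X =>
      ((ME a b ha hb).toContinuousLinearEquiv.toHomeomorph.image_interior X).symm
    have inj : Function.Injective (M a b) := (ME a b ha hb).injective
    show Disjoint _ _
    rw [e, e, Set.disjoint_image_iff inj]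
    exact disjH fun he => hne (by rw [he])
  · rintro _ ⟨⟨s, n, rfl⟩, -⟩ _ ⟨⟨t, m, rfl⟩, -⟩
    exact ext_M ha hb (ff s t n m)
  · refine ⟨fun i => M a b (EuclideanSpace.single i (1 : ℝ)), ?_, ?_⟩
    · have h1 := (EuclideanSpace.basisFun (Fin 3) ℝ).toBasis.linearIndependent
      have h2 := h1.map' (M a b) (LinearMap.ker_eq_bot.2 (ME a b ha hb).injective)
      have h3 : (⇑(M a b) ∘ ⇑(EuclideanSpace.basisFun (Fin 3) ℝ).toBasis) =
          fun i => M a b (EuclideanSpace.single i (1 : ℝ)) := by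
        funext i
        simp
      rw [h3] at h2
      exact h2
    · rintro i A ⟨⟨s, n, rfl⟩, φ, hφ⟩
      obtain ⟨n', hn'⟩ := shiftH (Pi.single i 1) s n
      refine ⟨⟨s, n', ?_⟩, φ.trans (IsometryEquiv.addRight (M a b (EuclideanSpace.single i 1))), ?_⟩
      · rw [← hn', image_image, image_image]
        refine image_congr fun x _ => ?_
        rw [map_add, tr_single]
      · rw [hφ, image_image]
        rfl

end Pool.Agent.TFF.HF

namespace Pool.Agent.TFF

open HF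

theorem half_ff (v : Fin 4 → E3) (hv : AffineIndependent ℝ v) (h : HalfHill v) : FFPer v := by
  obtain ⟨τ, h1, h2, h3, h4⟩ := h
  have hvτ : AffineIndependent ℝ (v ∘ τ) := hv.comp_embedding τ.toEmbedding
  set w : Fin 4 → E3 := ![v (τ 3), v (τ 1), v (τ 2), (2 : ℝ) • v (τ 0) - v (τ 3)] with hw
  have w0 : w 0 = v (τ 3) := rfl
  have w1 : w 1 = v (τ 1) := rfl
  have w2 : w 2 = v (τ 2) := rfl
  have w3 : w 3 = (2 : ℝ) • v (τ 0) - v (τ 3) := rfl
  have hwi : AffineIndependent ℝ w := by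
    rw [affineIndependent_iff_of_fintype] at hvτ ⊢
    intro g hg h0
    rw [Finset.univ.weightedVSub_eq_linear_combination hg, Fin.sum_univ_four] at h0
    rw [Fin.sum_univ_four] at hg
    have hs : ∑ i, (![2 * g 3, g 1, g 2, g 0 - g 3] : Fin 4 → ℝ) i = 0 := by
      rw [Fin.sum_univ_four]
      simp only [Matrix.cons_val]
      linarith
    have h5 := hvτ ![2 * g 3, g 1, g 2, g 0 - g 3] hs (by
      rw [Finset.univ.weightedVSub_eq_linear_combination hs, Fin.sum_univ_four]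
      simp only [Matrix.cons_val, Function.comp]
      rw [w0, w1, w2, w3] at h0
      rw [← h0]
      module)
    have g3 : 2 * g 3 = 0 := h5 0
    have g1 : g 1 = 0 := h5 1
    have g2 : g 2 = 0 := h5 2
    have g0 : g 0 - g 3 = 0 := h5 3
    intro i
    fin_cases i
    · show g 0 = 0
      linarith
    · exact g1
    · exact g2
    · show g 3 = 0
      linarith
  -- the distances
  have h1 : ‖w 1 - w 0‖ = ‖w 2 - w 1‖ := h1
  have h2 : ‖w 2 - w 1‖ = ‖w 3 - w 2‖ := h2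
  have h3 : inner ℝ (w 1 - w 0) (w 2 - w 1) = inner ℝ (w 2 - w 1) (w 3 - w 2) := h3
  have h4 : inner ℝ (w 2 - w 1) (w 3 - w 2) = inner ℝ (w 1 - w 0) (w 3 - w 2) := h4
  set u := w 1 - w 0 with hu
  set p := w 2 - w 1 with hp
  set z := w 3 - w 2 with hz
  have d01 : dist (w 0) (w 1) = ‖u‖ := by rw [dist_comm, dist_eq_norm]
  have d12 : dist (w 1) (w 2) = ‖u‖ := by rw [dist_comm, dist_eq_norm, h1]
  have d23 : dist (w 2) (w 3) = ‖u‖ := by rw [dist_comm, dist_eq_norm, h1, h2]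
  have d02 : dist (w 0) (w 2) = ‖u + p‖ := by
    rw [dist_comm, dist_eq_norm]
    congr 1
    rw [hu, hp]; abel
  have nup : ‖u + p‖ ^ 2 = 2 * ‖u‖ ^ 2 + 2 * inner ℝ u p := by
    rw [norm_add_sq_real, ← h1]; ring
  have npz : ‖p + z‖ ^ 2 = 2 * ‖u‖ ^ 2 + 2 * inner ℝ u p := by
    rw [norm_add_sq_real, ← h2, ← h1, ← h3]; ring
  have d13 : dist (w 1) (w 3) = ‖u + p‖ := by
    have e : ‖p + z‖ = ‖u + p‖ :=
      (pow_left_inj₀ (norm_nonneg _) (norm_nonneg _) two_ne_zero).1 (npz.trans nup.symm)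
    rw [← e, dist_comm, dist_eq_norm]
    congr 1
    rw [hp, hz]; abel
  have d03 : dist (w 0) (w 3) = ‖u + p + z‖ := by
    rw [dist_comm, dist_eq_norm]
    congr 1
    rw [hu, hp, hz]; abel
  have n3 : ‖u + p + z‖ ^ 2 = 3 * ‖u‖ ^ 2 + 6 * inner ℝ u p := by
    rw [norm_add_sq_real, nup, inner_add_left, ← h2, ← h1, ← h4, ← h3]; ring
  obtain ⟨a, b, ha, hb, Λ, hΛ⟩ := path_model w hwi ‖u‖ ‖u + p‖ ‖u + p + z‖ d01 d12 d23 d02 d13 d03
    (by rw [nup, n3]; ring)
  have hF : FFPer (v ∘ τ) := by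
    refine ff_image (hvert_per ha hb) Λ (w 0) fun i => ?_
    have k1 : w 1 = Λ (M a b (q 1)) + w 0 := hΛ 1
    have k2 : w 2 = Λ (M a b (q 2)) + w 0 := hΛ 2
    have k3 : w 3 = Λ (M a b (q 3)) + w 0 := hΛ 3
    fin_cases i
    · show v (τ 0) = Λ (M a b ((1 / 2 : ℝ) • q 3)) + w 0
      rw [map_smul, map_smul]
      have e : v (τ 0) = (1 / 2 : ℝ) • (w 3 + w 0) := by
        rw [w3, w0]
        module
      rw [e, k3]
      module
    · exact k1
    · exact k2
    · show v (τ 3) = Λ (M a b (q 0)) + w 0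
      have : q 0 = 0 := rfl
      rw [this, map_zero, map_zero, zero_add, w0]
  unfold FFPer at hF ⊢
  rwa [τ.surjective.range_comp] at hF

end Pool.Agent.TFF
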