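import Pool.Agent.H4TFF.HalfDefs

/-! # Halves of Hill tetrahedra: shifts and normal form (helper4) -/

set_option autoImplicit false

open Set
open Pool.Agent.TetRel
open Pool.Agent.TetDim.Hill

namespace Pool.Agent.TFF.HF

def sh (m : Fin 3 → ℤ) (n : Fin 6 → ℤ) : Fin 6 → ℤ :=
  ![n 0 + m 0, n 1 + m 1, n 2 + m 2, n 3 + (m 0 - m 1), n 4 + (m 1 - m 2), n 5 + (m 0 - m 2)]

theorem mem_sh (m : Fin 3 → ℤ) (n : Fin 6 → ℤ) (x : E3) : x + tr m ∈ C (sh m n) ↔ x ∈ C n := by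
  rw [mem_C, mem_C]
  simp [tr, sh]
  constructor <;> rintro ⟨⟨_, _⟩, ⟨_, _⟩, ⟨_, _⟩, ⟨_, _⟩, ⟨_, _⟩, ⟨_, _⟩⟩ <;>
    refine ⟨⟨?_, ?_⟩, ⟨?_, ?_⟩, ⟨?_, ?_⟩, ⟨?_, ?_⟩, ⟨?_, ?_⟩, ⟨?_, ?_⟩⟩ <;> linarith

theorem del_sh (m : Fin 3 → ℤ) (n : Fin 6 → ℤ) (x : E3) : del (sh m n) (x + tr m) = del n x := by
  have e0 : (x + tr m) 0 - ((sh m n 0 : ℤ) : ℝ) = x 0 - n 0 := by simp [tr, sh]
  have e1 : (x + tr m) 1 - ((sh m n 1 : ℤ) : ℝ) = x 1 - n 1 := by simp [tr, sh]
  have e2 : (x + tr m) 2 - ((sh m n 2 : ℤ) : ℝ) = x 2 - n 2 := by simp [tr, sh]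
  unfold del
  rw [e0, e1, e2]

theorem mem_shH (m : Fin 3 → ℤ) (s : Bool) (n : Fin 6 → ℤ) (x : E3) :
    x + tr m ∈ H s (sh m n) ↔ x ∈ H s n := by
  unfold H
  rw [mem_setOf_eq, mem_setOf_eq, mem_sh, del_sh]

theorem shiftH (m : Fin 3 → ℤ) (s : Bool) (n : Fin 6 → ℤ) :
    ∃ n', (fun x => x + tr m) '' H s n = H s n' := by
  refine ⟨sh m n, ?_⟩
  ext y
  constructor
  · rintro ⟨x, hx, rfl⟩
    exact (mem_shH m s n x).2 hx
  · intro hy
    refine ⟨y - tr m, ?_, by simp⟩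
    rw [← mem_shH m s n, sub_add_cancel]
    exact hy

theorem tr_single (i : Fin 3) : tr (Pi.single i 1) = EuclideanSpace.single i (1 : ℝ) := by
  ext j
  fin_cases i <;> fin_cases j <;> simp [tr]

/-- Transport by an isometry of the form `x ↦ Λ x + c`. -/
theorem ff_image {v w : Fin 4 → E3} (h : FFPer v) (Λ : E3 ≃ₗᵢ[ℝ] E3) (c : E3)
    (hw : ∀ i, w i = Λ (v i) + c) : FFPer w := by
  obtain ⟨S, h1, h2, h3, h3', a, ha, h4⟩ := h
  set f : E3 ≃ᵢ E3 := Λ.toIsometryEquiv.trans (IsometryEquiv.addRight c) with hf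
  have fx : ∀ x, f x = Λ x + c := fun x => rfl
  have hull : convexHull ℝ (range w) = f '' convexHull ℝ (range v) := by
    have e : range w = (fun x => x + c) '' (Λ '' range v) := by
      rw [← range_comp, ← range_comp]
      congr 1
      funext i
      exact hw i
    have e2 : (fun x : E3 => x + c) '' (Λ '' convexHull ℝ (range v)) =
        convexHull ℝ ((fun x : E3 => x + c) '' (Λ '' range v)) := by
      have h5 := (Λ.toLinearEquiv : E3 →ₗ[ℝ] E3).image_convexHull (range v)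
      have h6 := (AffineEquiv.constVAdd ℝ E3 c : E3 →ᵃ[ℝ] E3).image_convexHull (Λ '' range v)
      have h7 : ((AffineEquiv.constVAdd ℝ E3 c : E3 →ᵃ[ℝ] E3) : E3 → E3) =
          fun x => x + c := by
        funext x
        simp [add_comm]
      rw [h7] at h6
      rw [← h6]
      congr 1
    rw [e, ← e2, image_image]
    rfl
  refine ⟨(fun A => f '' A) '' S, ?_, ?_, ?_, ?_, fun i => Λ (a i), ?_, ?_⟩
  · rintro _ ⟨A, hA, rfl⟩
    obtain ⟨φ, rfl⟩ := h1 A hA
    refine ⟨f.symm.trans (φ.trans f), ?_⟩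
    show f '' (φ '' convexHull ℝ (range v)) = _
    rw [hull, image_image, image_image]
    refine image_congr fun x _ => ?_
    simp
  · rw [sUnion_image]
    have h5 := congrArg (fun A => f '' A) h2
    simp only [sUnion_eq_biUnion, image_iUnion₂, image_univ] at h5
    rw [h5]
    exact f.surjective.range_eq
  · rintro _ ⟨A, hA, rfl⟩ _ ⟨B, hB, rfl⟩ hne
    have hAB : A ≠ B := fun e => hne (by rw [e])
    have := h3 hA hB hAB
    show Disjoint (interior (f '' A)) (interior (f '' B))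
    have e : ∀ X : Set E3, interior (f '' X) = f '' interior X := fun X =>
      (f.toHomeomorph.image_interior X).symm
    rw [e, e, Set.disjoint_image_iff f.injective]
    exact this
  · rintro _ ⟨A, hA, rfl⟩ _ ⟨B, hB, rfl⟩
    have hE := h3' A hA B hB
    show IsExtreme ℝ (f '' A) (f '' A ∩ f '' B)
    rw [← image_inter f.injective]
    refine ⟨image_mono inter_subset_left, ?_⟩
    rintro _ ⟨x1, hx1, rfl⟩ _ ⟨x2, hx2, rfl⟩ _ ⟨x, hx, rfl⟩ hs
    refine ⟨x1, hE.2 hx1 hx2 hx ?_, rfl⟩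
    obtain ⟨s, t, hs0, ht0, hst, he⟩ := hs
    refine ⟨s, t, hs0, ht0, hst, ?_⟩
    apply f.injective
    rw [← he, fx, fx, fx, map_add, map_smul, map_smul]
    have : c = s • c + t • c := by rw [← add_smul, hst, one_smul]
    nth_rewrite 1 [this]
    module
  · exact ha.map' (Λ.toLinearEquiv : E3 →ₗ[ℝ] E3)
      (LinearMap.ker_eq_bot.2 Λ.toLinearEquiv.injective)
  · rintro i _ ⟨A, hA, rfl⟩
    refine ⟨_, h4 i A hA, ?_⟩
    show f '' _ = _
    rw [image_image, image_image]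
    refine image_congr fun x _ => ?_
    rw [fx, fx, map_add]
    abel

/-- A path with three equal edges and the right diagonals. -/
theorem path_model (w : Fin 4 → E3) (hw : AffineIndependent ℝ w) (s t r : ℝ)
    (h01 : dist (w 0) (w 1) = s) (h12 : dist (w 1) (w 2) = s) (h23 : dist (w 2) (w 3) = s)
    (h02 : dist (w 0) (w 2) = t) (h13 : dist (w 1) (w 3) = t) (h03 : dist (w 0) (w 3) = r)
    (hr : 3 * t ^ 2 = 3 * s ^ 2 + r ^ 2) :
    ∃ a b : ℝ, a ≠ 0 ∧ a + 3 * b ≠ 0 ∧ ∃ Λ : E3 ≃ₗᵢ[ℝ] E3, ∀ i, w i = Λ (vert a b i) + w 0 := by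
  set u := w 1 - w 0 with hu
  set v := w 2 - w 1 with hv
  set z := w 3 - w 2 with hz
  have nu : ‖u‖ = s := by rw [hu, ← dist_eq_norm, dist_comm]; exact h01
  have nv : ‖v‖ = s := by rw [hv, ← dist_eq_norm, dist_comm]; exact h12
  have nz : ‖z‖ = s := by rw [hz, ← dist_eq_norm, dist_comm]; exact h23
  have nuv : ‖u + v‖ = t := by
    have : u + v = w 2 - w 0 := by rw [hu, hv]; abel
    rw [this, ← dist_eq_norm, dist_comm]; exact h02
  have nvz : ‖v + z‖ = t := by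
    have : v + z = w 3 - w 1 := by rw [hv, hz]; abel
    rw [this, ← dist_eq_norm, dist_comm]; exact h13
  have nuvz : ‖u + v + z‖ = r := by
    have : u + v + z = w 3 - w 0 := by rw [hu, hv, hz]; abel
    rw [this, ← dist_eq_norm, dist_comm]; exact h03
  have iuv : t ^ 2 = s ^ 2 + 2 * inner ℝ u v + s ^ 2 := by
    rw [← nuv, norm_add_sq_real, nu, nv]
  have ivz : t ^ 2 = s ^ 2 + 2 * inner ℝ v z + s ^ 2 := by
    rw [← nvz, norm_add_sq_real, nv, nz]
  have iuz : r ^ 2 = t ^ 2 + 2 * (inner ℝ u z + inner ℝ v z) + s ^ 2 := by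
    rw [← nuvz, norm_add_sq_real, nuv, nz, inner_add_left]
  have inj := hw.injective
  have s0 : 0 < s := by
    rw [← h01]; exact dist_pos.2 fun h => absurd (inj h) (by decide)
  have r0 : 0 < r := by
    rw [← h03]; exact dist_pos.2 fun h => absurd (inj h) (by decide)
  have t0 : 0 < t := by
    rw [← h02]; exact dist_pos.2 fun h => absurd (inj h) (by decide)
  have st : s < t := by
    have : s ^ 2 < t ^ 2 := by nlinarith
    exact lt_of_pow_lt_pow_left₀ 2 t0.le this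
  have ts : t < 2 * s := by
    have hne : u - v ≠ 0 := by
      intro h0
      rw [affineIndependent_iff_of_fintype] at hw
      have h1 := hw ![1, -2, 1, 0] (by simp [Fin.sum_univ_four]; norm_num) (by
        rw [Finset.univ.weightedVSub_eq_linear_combination
          (by simp [Fin.sum_univ_four]; norm_num), Fin.sum_univ_four]
        have h2 : w 1 - w 0 - (w 2 - w 1) = 0 := h0
        have h3 : (![1, -2, 1, 0] : Fin 4 → ℝ) 0 • w 0 + (![1, -2, 1, 0] : Fin 4 → ℝ) 1 • w 1 +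
            (![1, -2, 1, 0] : Fin 4 → ℝ) 2 • w 2 + (![1, -2, 1, 0] : Fin 4 → ℝ) 3 • w 3 =
            -(w 1 - w 0 - (w 2 - w 1)) := by
          simp only [Matrix.cons_val]
          module
        rw [h3, h2, neg_zero]) 0
      simp at h1
    have h1 : 0 < ‖u - v‖ ^ 2 := by have := norm_pos_iff.2 hne; positivity
    rw [norm_sub_sq_real, nu, nv] at h1
    have : t ^ 2 < (2 * s) ^ 2 := by nlinarith
    exact lt_of_pow_lt_pow_left₀ 2 (by linarith) this
  obtain ⟨a, b, ha, hb, e0, e1⟩ := exists_len s0 st ts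
  have q0 : (a + b) ^ 2 + 2 * b ^ 2 = s ^ 2 := by
    rw [len_0] at e0
    rw [← e0, Real.sq_sqrt (by positivity)]
  have q1 : 2 * (a + 2 * b) ^ 2 + 4 * b ^ 2 = t ^ 2 := by
    rw [len_1] at e1
    rw [← e1, Real.sq_sqrt (by positivity)]
  let L : E3 →ₗ[ℝ] E3 :=
    { toFun := fun x => x 0 • u + x 1 • v + x 2 • z
      map_add' := fun x y => by simp only [PiLp.add_apply]; module
      map_smul' := fun c x => by
        simp only [PiLp.smul_apply, smul_eq_mul, RingHom.id_apply]; module }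
  have hL : ∀ x : E3, L x = x 0 • u + x 1 • v + x 2 • z := fun x => rfl
  have nL : ∀ x : E3, ‖L x‖ = ‖M a b x‖ := by
    intro x
    have h1 : ‖L x‖ ^ 2 = ‖M a b x‖ ^ 2 := by
      have l1 : ‖L x‖ ^ 2 = x 0 ^ 2 * s ^ 2 + x 1 ^ 2 * s ^ 2 + x 2 ^ 2 * s ^ 2 +
          2 * (x 0 * x 1) * inner ℝ u v + 2 * (x 0 * x 2) * inner ℝ u z +
          2 * (x 1 * x 2) * inner ℝ v z := by
        rw [hL, norm_add_sq_real, norm_add_sq_real, norm_smul, norm_smul, norm_smul, nu, nv, nz,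
          inner_add_left]
        simp only [inner_smul_left, inner_smul_right, mul_pow, Real.norm_eq_abs, sq_abs,
          conj_trivial]
        ring
      have l2 : ‖M a b x‖ ^ 2 = (a * x 0 + b * (x 0 + x 1 + x 2)) ^ 2 +
          (a * x 1 + b * (x 0 + x 1 + x 2)) ^ 2 + (a * x 2 + b * (x 0 + x 1 + x 2)) ^ 2 := by
        rw [M_apply, EuclideanSpace.norm_eq, Real.sq_sqrt (by positivity), Fin.sum_univ_three]
        simp
      rw [l1, l2]
      have c1 : inner ℝ u v = t ^ 2 / 2 - s ^ 2 := by linarith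
      have c2 : inner ℝ v z = t ^ 2 / 2 - s ^ 2 := by linarith
      have c3 : inner ℝ u z = t ^ 2 / 2 - s ^ 2 := by linarith
      rw [c1, c2, c3, ← q0, ← q1]
      ring
    exact (pow_left_inj₀ (norm_nonneg _) (norm_nonneg _) two_ne_zero).1 h1
  let Λ₀ : E3 →ₗᵢ[ℝ] E3 :=
    { toLinearMap := L.comp ((ME a b ha hb).symm : E3 →ₗ[ℝ] E3)
      norm_map' := fun x => by
        show ‖L ((ME a b ha hb).symm x)‖ = ‖x‖
        rw [nL, ← ME_apply a b ha hb, LinearEquiv.apply_symm_apply] }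
  let Λ : E3 ≃ₗᵢ[ℝ] E3 := Λ₀.toLinearIsometryEquiv rfl
  have hΛ : ∀ x, Λ (M a b x) = L x := by
    intro x
    show L ((ME a b ha hb).symm (M a b x)) = L x
    rw [← ME_apply a b ha hb, LinearEquiv.symm_apply_apply]
  refine ⟨a, b, ha, hb, Λ, fun i => ?_⟩
  show w i = Λ (M a b (q i)) + w 0
  rw [hΛ, hL]
  fin_cases i
  · simp [q]
  · simp [q, hu]
  · simp [q, hu, hv]
  · simp [q, hu, hv, hz]

end Pool.Agent.TFF.HF
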